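import Pool.Agent.N874.QM.Stm

/-!
QM/GEN: an integral primitive element of a number field.
-/

set_option autoImplicit false
set_option linter.all false

open Polynomial IsDedekindDomain NumberField
open scoped Classical IntermediateField

namespace Pool.Agent.N160.QM

open Pool.Agent.N874.QM

theorem gen : S_GEN := by
  intro M _ _
  obtain ⟨α, hα⟩ := Field.exists_primitive_element ℚ M
  have halg : Algebra.IsAlgebraic ℤ M := by
    have : Algebra.IsAlgebraic ℚ M := Algebra.IsAlgebraic.of_finite ℚ M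
    exact (IsFractionRing.comap_isAlgebraic_iff (A := ℤ) (K := ℚ) (C := M)).2 this
  have hinj : Function.Injective (algebraMap ℤ ℚ) := IsFractionRing.injective ℤ ℚ
  obtain ⟨y, hy, hint⟩ := (halg.isAlgebraic α).exists_integral_multiple
  obtain ⟨γ, hγ⟩ : ∃ γ : M, γ = y • α := ⟨_, rfl⟩
  rw [← hγ] at hint
  have htop : ℚ⟮γ⟯ = ⊤ := by
    rw [eq_top_iff, ← hα, IntermediateField.adjoin_simple_le_iff]
    have h1 : algebraMap ℚ M (algebraMap ℤ ℚ y) ≠ 0 := by
      rw [Ne, map_eq_zero]
      intro h0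
      exact hy (hinj (by rw [h0, map_zero]))
    have h2 : α = algebraMap ℚ M (algebraMap ℤ ℚ y)⁻¹ * γ := by
      rw [hγ, Algebra.smul_def, IsScalarTower.algebraMap_apply ℤ ℚ M, map_inv₀,
        inv_mul_cancel_left₀ h1]
    rw [h2]
    exact mul_mem (IntermediateField.algebraMap_mem _ _)
      (IntermediateField.mem_adjoin_simple_self ℚ γ)
  have hmin := minpoly.isIntegrallyClosed_eq_field_fractions' ℚ hint
  have hmon : (minpoly ℤ γ).Monic := minpoly.monic hint
  have hsep : (minpoly ℚ γ).Separable := Algebra.IsSeparable.isSeparable ℚ γ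
  obtain ⟨u₀, w₀, h₀⟩ := hsep
  obtain ⟨b₁, hb₁, h₁⟩ := IsLocalization.integerNormalization_spec (nonZeroDivisors ℤ) u₀
  obtain ⟨b₂, hb₂, h₂⟩ := IsLocalization.integerNormalization_spec (nonZeroDivisors ℤ) w₀
  have hne1 : b₁ ≠ 0 := nonZeroDivisors.ne_zero hb₁
  have hne2 : b₂ ≠ 0 := nonZeroDivisors.ne_zero hb₂
  -- the combination with an integer
  have hcomb : ∃ u w : ℤ[X], C (b₁ * b₂) = u * minpoly ℤ γ + w * derivative (minpoly ℤ γ) := by
    refine ⟨C b₂ * IsLocalization.integerNormalization (nonZeroDivisors ℤ) u₀,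
      C b₁ * IsLocalization.integerNormalization (nonZeroDivisors ℤ) w₀, ?_⟩
    apply Polynomial.map_injective (algebraMap ℤ ℚ) hinj
    rw [Polynomial.map_add, Polynomial.map_mul, Polynomial.map_mul, Polynomial.map_mul,
      Polynomial.map_mul, h₁, h₂, ← Polynomial.derivative_map, ← hmin, Polynomial.map_C,
      Polynomial.map_C, Polynomial.map_C, map_mul, C_mul]
    have e : ∀ (b : ℤ) (p : ℚ[X]), b • p = C (algebraMap ℤ ℚ b) * p := by
      intro b p
      rw [← Polynomial.smul_eq_C_mul, algebraMap_smul]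
    rw [e, e]
    linear_combination (-(C (algebraMap ℤ ℚ b₁) * C (algebraMap ℤ ℚ b₂))) * h₀
  obtain ⟨u, w, huw⟩ := hcomb
  refine ⟨γ, minpoly ℤ γ, (b₁ * b₂).natAbs, ⟨htop, hmon, minpoly.aeval _ _,
    Int.natAbs_ne_zero.2 (mul_ne_zero hne1 hne2), ?_⟩, ?_⟩
  · rcases Int.natAbs_eq (b₁ * b₂) with h | h
    · exact ⟨u, w, by rw [← h]; exact huw⟩
    · refine ⟨-u, -w, ?_⟩
      have h' : (((b₁ * b₂).natAbs : ℕ) : ℤ) = -(b₁ * b₂) := by
        omega
      rw [h', C_neg, huw]
      ring
  · rw [← IntermediateField.finrank_top' (F := ℚ) (E := M), ← htop,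
      IntermediateField.adjoin.finrank (IsIntegral.tower_top hint), hmin, hmon.natDegree_map]

end Pool.Agent.N160.QM
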